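import Pool.Agent.H289Z.FD3

/-!
# A free action of the integers without finite dynamical complexity

The group of integers has finite decomposition complexity, and it has a free amenable action on a
compact metrizable space whose transformation groupoid does not have finite dynamical complexity.
-/

set_option autoImplicit false

namespace Pool.Agent.Results.MP_17e467_an.ANotFDC

open Pool.Agent.H289Z.FD

theorem result : HasFDC (Multiplicative ℤ) ∧
    ∃ (X : Type) (_ : TopologicalSpace X) (_ : CompactSpace X)
      (_ : TopologicalSpace.MetrizableSpace X) (_ : MulAction (Multiplicative ℤ) X),
      (∀ g : Multiplicative ℤ, Continuous fun x : X => g • x) ∧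
      (∀ (g : Multiplicative ℤ) (x : X), g • x = x → g = 1) ∧
      IsAmenableAction (Multiplicative ℤ) X ∧
      ¬ FiniteDynamicalComplexity (Multiplicative ℤ) X :=
  ⟨hasFDC_int, XS, inferInstance, inferInstance, inferInstance, inferInstance,
    fun g => continuous_const_smul g, free_XS, amenable_int XS, not_fdc⟩

end Pool.Agent.Results.MP_17e467_an.ANotFDC
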